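import Mathlib
import Pool.Agent.X253.C3.TwL5
import Pool.Agent.Y667.BKP.Main
import Pool.Agent.X253.CF.Ex

/-!
# Abel–Jacobi maps of the curves `y² + D y = x³` over the fields `ℚ(ω, ∛l₁, …, ∛l_n)`

`K` is the field of third roots of unity and `E_D : y² + D y = x³`, an elliptic curve with complex
multiplication by the integers of `K`.  Let `D` in `𝓞 K` be cube-free, `1` modulo `3`, with norm not `1`
modulo `9`, such that `E_D(K)` is finite and `Ш(E_D / K)[3^∞] = 0`; these `D` are exactly the proportion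
`∏_{i ≥ 0} (1 - 3^{-(2 i + 1)}) = 0.639...` of all the `D` of the class, ordered by the norm
(`Pool/Agent/X253/CF`).  Then there is an infinite set `Q` of primes of
`𝓞 K` such that for all finite subsets `S` of `Q`, all the twists `D' = D ∏ l ^ m_l`, `0 ≤ m_l ≤ 2`, and
the field `F = K(∛l : l ∈ S)` of degree `3 ^ #S` over `K`: `E_{D'}(F) ⊗ ℚ₃ = 0` and
`H¹_f(F, V₃ E_{D'}) = 0`.  So for the motive `M = h¹(E_{D'})(1)` over `F` (and over `K`), with
`CH(M)⁰ = E_{D'}(F) ⊗ ℚ`, the 3-adic Abel–Jacobi map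
`CH(M)⁰ ⊗ ℚ₃ → H¹(F, M₃)` is injective and its image is the Bloch–Kato Selmer group.

Over `F` the curves `E_{D'}` and `E_D` are isomorphic, so the statement over `F` is given for `E_D` and the
one over `K` for all the twists.

`H1f 3 W` (`Pool.Agent.Y667.BKP.H1f`) is the group of the classes of the continuous cocycles of the
absolute Galois group with values in `V₃ W = T₃ W ⊗ ℚ₃` whose restriction to the completion at every
place is in the image of the Kummer map; this is the condition of Bloch and Kato.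
-/

set_option autoImplicit false

namespace Pool.Agent.Results.MP_009fd8_ag.CubicTowers

open NumberField IsDedekindDomain
open Pool.Agent.TH841.NF.D (Sha)
open Pool.Agent.Y667.BKP (H1f)

/-- The curve `E_D : y² + D y = x³`. -/
def curve {K : Type} [Field K] (D : K) : WeierstrassCurve K := ⟨0, 0, D, 0, 0⟩

section

variable {K : Type} [Field K] [NumberField K]

/-- `D` is cube-free and `1` modulo `3`, and its norm is not `1` modulo `9`. -/
def InClass (D : 𝓞 K) : Prop :=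
  (3 : 𝓞 K) ∣ D - 1 ∧ (∀ p : 𝓞 K, Prime p → ¬ p ^ 3 ∣ D) ∧ ¬ (9 : ℤ) ∣ Algebra.norm ℤ D - 1

/-- `E_D(K)` is finite and the `3`-primary part of `Ш(E_D / K)` is trivial. -/
def FiniteAndTrivial (D : 𝓞 K) : Prop :=
  Finite (curve (D : K)).toAffine.Point ∧ ∀ (n : ℕ) (x : Sha (curve (D : K))), 3 ^ n • x = 0 → x = 0

/-- `F = K(∛l : l ∈ S)`. -/
def Generated (F : Type) [Field F] [NumberField F] [Algebra K F] (S : Finset (𝓞 K)) : Prop :=
  ∃ r : 𝓞 K → F, (∀ l ∈ S, r l ^ 3 = algebraMap K F l) ∧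
    ∀ L : Subfield F, (∀ a : K, algebraMap K F a ∈ L) → (∀ l ∈ S, r l ∈ L) → L = ⊤

open Classical in
/-- The 3-adic Abel–Jacobi map of the motive `h¹(W)(1)` over `K` is an isomorphism from `W(K) ⊗ ℚ₃` to
`H¹_f(K, V₃ W)`, both being zero. -/
def BothZero (W : WeierstrassCurve K) : Prop :=
  (∀ x : TensorProduct ℤ W.toAffine.Point ℚ_[3], x = 0) ∧ ∀ x : H1f 3 W, x = 0

/-- There is an infinite set `Q` of primes `l = 1` modulo `3` of norm `1` modulo `9` that do not
divide `D`, such that for all finite subsets `S` of `Q` the curves `E_{D'}` over `K`,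
`D' = D ∏ l ^ m_l`, `m_l < 3`, have the property `BothZero`, and every extension `F = K(∛l : l ∈ S)` has
degree `3 ^ #S` and `E_D` over `F` has the property `BothZero`. -/
def HasTowers (D : 𝓞 K) : Prop :=
  ∃ Q : Set (𝓞 K), Q.Infinite ∧
    (∀ l ∈ Q, Prime l ∧ (3 : 𝓞 K) ∣ l - 1 ∧ (9 : ℤ) ∣ Algebra.norm ℤ l - 1 ∧ ¬ l ∣ D) ∧
    ∀ S : Finset (𝓞 K), (∀ l ∈ S, l ∈ Q) →
      (∀ m : 𝓞 K → ℕ, (∀ l ∈ S, m l < 3) →
        BothZero (curve ((D * ∏ l ∈ S, l ^ m l : 𝓞 K) : K))) ∧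
      ∀ (F : Type) [Field F] [NumberField F] [Algebra K F], Generated F S →
        Module.finrank K F = 3 ^ S.card ∧ BothZero (curve (algebraMap K F D))

lemma bothZero_of {W : WeierstrassCurve K} (hfin : Finite W.toAffine.Point) (m : ℕ)
    (hS : ∀ (k : ℕ) (x : Sha W), 3 ^ k • x = 0 → 3 ^ m • x = 0) : BothZero W := by
  classical
  exact ⟨Pool.Agent.Y667.BKP.tensor_zero 3, Pool.Agent.Y667.BKP.h1f_zero Nat.prime_three hfin m hS⟩

end

/-- **The towers.** Every cube-free `D` of the class with `E_D(K)` finite and `Ш(E_D / K)[3^∞] = 0` has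
towers of cubic extensions over which the 3-adic Abel–Jacobi map of `h¹(E_D)(1)` is an isomorphism onto
the Bloch–Kato Selmer group (both are zero); these `D` are exactly
the proportion `0.639...` of the class. -/
theorem result (K : Type) [Field K] [NumberField K] [IsCyclotomicExtension {3} ℚ K] :
    (∀ D : 𝓞 K, InClass D → FiniteAndTrivial D → HasTowers D) ∧
    (∃ c : ℝ, 0 < c ∧ ∃ X₀ : ℕ, ∀ X : ℕ, X₀ ≤ X →
      c * X ≤ ({D : 𝓞 K | Algebra.norm ℤ D ≤ X ∧ InClass D}.ncard : ℝ)) ∧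
    Filter.Tendsto (fun X : ℕ =>
      ({D : 𝓞 K | Algebra.norm ℤ D ≤ X ∧ InClass D ∧ FiniteAndTrivial D}.ncard : ℝ) /
        ({D : 𝓞 K | Algebra.norm ℤ D ≤ X ∧ InClass D}.ncard : ℝ))
      Filter.atTop (nhds (∏' i : ℕ, (1 - (1 / 3 : ℝ) ^ (2 * i + 1)))) ∧
    0.639 < ∏' i : ℕ, (1 - (1 / 3 : ℝ) ^ (2 * i + 1)) ∧
    ∏' i : ℕ, (1 - (1 / 3 : ℝ) ^ (2 * i + 1)) < 0.6391 := by
  refine ⟨fun D hD hT => ?_, Pool.Agent.X253.CF.prop_exact K⟩
  obtain ⟨Q, h1, h2, h3⟩ := Pool.Agent.X253.C3.tower3 K D hD hT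
  refine ⟨Q, h1, h2, fun S hS => ⟨fun m hm => ?_, fun F _ _ _ hF => ?_⟩⟩
  · obtain ⟨-, h4, h5⟩ := (h3 S hS).1 m hm
    exact bothZero_of h4 0 fun k x hx => by rw [pow_zero, one_smul]; exact h5 k x hx
  · obtain ⟨r, hr, hgen⟩ := hF
    obtain ⟨h4, h5, h6⟩ := (h3 S hS).2 F r hr hgen
    exact ⟨h4, bothZero_of h5 S.card h6⟩

end Pool.Agent.Results.MP_009fd8_ag.CubicTowers
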