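import Pool.Agent.X312.FK.Frob

/-!
# Gap laws for the p-adic Abel-Jacobi maps into the Selmer groups of `Y × X ^ n`

Let `K` be a number field and `X` a smooth projective geometrically irreducible variety over `K`,
such that the numerically trivial self-correspondences of its powers are nilpotent, with
`ℚ_p`-coefficients (by Kimura this holds if the Chow motive of `X` is finite-dimensional, for
example for products of curves and for abelian varieties), and such that homological and numerical
equivalence agree on its powers (known for abelian varieties and products of curves and surfaces).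
Let `Y` be **any smooth projective variety** over `K`. Consider the Abel-Jacobi maps

`AJ_p : CH^r(Y × Z)^0 ⊗ ℚ_p → H^1(K, H^(2 r - 1)(Y × Z, ℚ_p)(r))`, `r ≥ 1`.

Let `ρ(Z)` be the rank of the cycles of all codimensions on `Z` modulo numerical equivalence, `b`
the sum of the Betti numbers of `X`, and `ε_n = 4 (m + 3) b ^ (m + 5) log (n + 1) / n`. For all `m
≥ 1`:

(1) **the maps** `AJ_p` **are injective for** `Y × X ^ m` **and all** `r`, **or for all** `n ≥ 1`
**their kernels for** `Y × X ^ n` **have together dimension at least** `(1 - ε_n) ρ(X ^ n)`;

(2) **the Selmer groups** `H^1_f(K, H^(2 r - 1)(Y × X ^ m, ℚ_p)(r))` **are contained in the images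
of the maps** `AJ_p` **for all** `r`, **or for all** `n ≥ 1` **the Selmer groups for** `Y × X ^ n`
**contain together at least** `(1 - ε_n) ρ(X ^ n)` **classes which are linearly independent modulo
the images of the maps** `AJ_p`.

The first statement of (1) implies the injectivity in Q1 for all the motives of weight -1 cut out
of the varieties `Y × X ^ m` by correspondences, and the first statement of (2) implies for these
motives that the Selmer group is contained in the image. So one element of the Selmer group of
some `Y × X ^ m` which does not come from a cycle forces almost `ρ(X ^ n)` elements of this kind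
for all the varieties `Y × X ^ n`.

The proof. Modulo numerical equivalence the self-correspondences of `P = X ^ m` form a
finite-dimensional algebra, and the numerically trivial ones are nilpotent, so that idempotents
can be lifted. Let `T` be an additive functor, for example the kernel or the cokernel of `c`,
which does not vanish on `P`. One takes an idempotent correspondence `g` on `P` of minimal rank
with `g T(P) ≠ 0` and an element `z ≠ 0` of `g T(P)`. The correspondences `x` with `x z = 0` have
a nilpotent compression `g x g`, so the trace of `g x` vanishes, and so `dim T(Z)` is at least the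
rank of the trace form `(u, v) ↦ tr (g v u)` on the correspondences between `P` and `Z`; for `Z =
X ^ n` this rank is compared with `ρ(X ^ n)` by the log-convexity of the sequence of the ranks of
the intersection forms and by the symmetric group.
-/

set_option autoImplicit false

open CategoryTheory AlgebraicGeometry

universe u v w

namespace Pool.Agent.Results.MP_009fd8_ag.FunctorGapLaw

open Pool.Agent.H914 VarClass Obj WeilCohomology
open Pool.Agent.X312.FK (ChowData ChowModule IsRegulator IndepMod gapBound)
open Pool.Agent.Y133.Half (pw cycRank)

variable {k : Type u} [Field k] {𝒱 : VarClass k} {ops : CycleOps 𝒱}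
  {W : WeilCohomology.{u, v} ops}

/-- The sum of the Betti numbers of `X`. -/
noncomputable def totalBetti (W : WeilCohomology.{u, v} ops) (X : 𝒱.Obj) : ℕ :=
  Module.finrank W.K (W.H X)

/-- **The gap laws for the p-adic Abel-Jacobi maps.** Here `C` is the category of Chow correspondences
over `K` with coefficients in `ℚ_p`, `c` is the sum over `r` of the maps
`AJ_p : CH^r(Y × Z)^0 ⊗ ℚ_p → H^1(K, H^(2 r - 1)(Y × Z, ℚ_p)(r))` (and may be any natural transformation
between functors), `N Z` is the sum of the Bloch-Kato Selmer groups, and `pw X m` is the product of
`m + 1` copies of `X`. -/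
theorem result (C : ChowData W) (hC : C.IsChow) (S T : ChowModule C) (hS : S.IsFunctor)
    (hT : T.IsFunctor) (c : ∀ Z : 𝒱.Obj, S.M Z → T.M Z) (hc : IsRegulator S T c)
    (N : ∀ Z : 𝒱.Obj, Submodule W.K (T.M Z))
    (hN : ∀ (Z Z' : 𝒱.Obj) (a : C.A Z Z') (x : T.M Z), x ∈ N Z → T.act a x ∈ N Z')
    (X : 𝒱.Obj) (hX : ∀ n : ℕ, C.NumNil (pw X n)) (hD : ∀ n : ℕ, HomEqNum W (pw X n)) (m : ℕ) :
    -- injectivity
    ((∀ x : S.M (pw X m), c _ x = 0 → x = 0) ∨
    ∀ n : ℕ, IndepMod {x : S.M (pw X n) | c _ x = 0} (⊥ : Submodule W.K (S.M (pw X n)))
      (gapBound (totalBetti W X) (cycRank ops (pw X n)) m n)) ∧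
    -- the Selmer groups
    ((∀ y ∈ N (pw X m), ∃ x, c _ x = y) ∨
    ∀ n : ℕ, IndepMod (N (pw X n) : Set (T.M (pw X n)))
      (Submodule.span W.K (Set.range (c (pw X n))))
      (gapBound (totalBetti W X) (cycRank ops (pw X n)) m n)) :=
  Pool.Agent.X312.FK.sel_chow hC hS hT hc hN X hX hD m

end Pool.Agent.Results.MP_009fd8_ag.FunctorGapLaw
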