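import Mathlib
import Pool.Agent.X307.Fr
import Pool.Agent.TH841.PM.Fin2

/-!
# Moments of the Bloch–Kato Selmer groups of h¹(W)(1) in one-parameter families over varying fields

`W_t : y² = x³ + A(t) x + B(t) = (x - e₁(t)) (x - e₂(t)) (x - e₃(t))` with polynomials `e_i` such
that `e₂ - e₁ = D₀ u₀`, `e₃ - e₁ = D₀ u₁`, `e₂ - e₃ = D₀ u₂`, where `u_k` is a constant times
a product of `n_k` irreducible polynomials, these `n₀ + n₁ + n₂` irreducible polynomials being
pairwise different, and `D₀` is any nonzero polynomial not divisible by one of them. The curve `W_t`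
is considered over the field `F_t = ℚ(√D₁(t), ..., √D_s(t))`, for arbitrary nonzero polynomials
`D_i` not divisible by one of these polynomials. If `n_k < n_i + n_j` for `{i, j, k} = {0, 1, 2}`,
there is a set `Z` of integers of density zero, uniformly in short intervals, such that outside of
`Z` all the moments of `2 ^ dim H¹_f(F_t, V₂ W_t)` are bounded. The Abel–Jacobi map
`ℚ₂ ⊗ W_t(F_t) → H¹_f(F_t, V₂ W_t)` is injective, so the same is true for the dimension of its cokernel.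
-/

set_option autoImplicit false

namespace Pool.Agent.Results.MP_009fd8_ag.SelmerMomentsPencils

open Finset Polynomial

open Pool.Agent.X307 (AJIso H1f)

open Pool.Agent.TH841.SH.D (Pt)

/-- the curve `y² = x³ + A x + B` over `F` -/
def EF (A B : ℤ) (F : Type) [Field F] : WeierstrassCurve F := ⟨0, 0, 0, (A : F), (B : F)⟩

/-- the number field `F` is generated by square roots of the integers `d i` -/
def Gen (F : Type) [Field F] [NumberField F] {s : ℕ} (d : Fin s → ℤ) : Prop :=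
  ∃ x : Fin s → F, (∀ i, x i ^ 2 = (d i : F)) ∧
    IntermediateField.adjoin ℚ (Set.range x) = ⊤

/-- `u_k = a_k ∏ f_{k,i}` -/
noncomputable def u {n : Fin 3 → ℕ} (a : Fin 3 → ℤ) (f : ∀ k : Fin 3, Fin (n k) → ℤ[X])
    (k : Fin 3) : ℤ[X] := C (a k) * ∏ i, f k i

open Classical in
/-- the integers `t` with `N < t ≤ N + M` outside of `Z` -/
noncomputable def Off (Z : Set ℤ) (N : ℤ) (M : ℕ) : Finset ℤ :=
  (Ioc N (N + M)).filter (fun t => t ∉ Z)

open Classical in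
/-- `Z` has density zero, uniformly in the intervals `(N, N + M]` with `|N| ≤ M ^ L` -/
def DensityZero (Z : Set ℤ) : Prop := ∀ (L : ℕ) (ε : ℝ), 0 < ε → ∃ M0 : ℕ, ∀ (N : ℤ) (M : ℕ),
  M0 ≤ M → |N| ≤ (M : ℤ) ^ L → (((Ioc N (N + (M : ℤ))).filter (fun t => t ∈ Z)).card : ℝ) ≤ ε * M

/-- the dimension of `H¹_f(F, V₂ W)` over `ℚ₂` -/
noncomputable def h1 {F : Type} [Field F] [NumberField F] (W : WeierstrassCurve F) : ℕ :=
  Module.finrank ℚ_[2] (H1f 2 W)

/-- `H¹_f(F, V₂ W)` has a finite dimension, which is at least the rank of `W(F)`, and the Abel–Jacobi map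
`ℚ₂ ⊗ W(F) → H¹_f(F, V₂ W)` is an isomorphism if and only if the dimension is equal to the rank. -/
def Bounds {F : Type} [Field F] [NumberField F] (W : WeierstrassCurve F) : Prop :=
  Module.Finite ℚ_[2] (H1f 2 W) ∧ Module.finrank ℤ (Pt W F) ≤ h1 W ∧
    (AJIso 2 W ↔ h1 W = Module.finrank ℤ (Pt W F))

lemma disc_ne {A B e₁ e₂ e₃ : ℤ} (he : ∀ x : ℤ, x ^ 3 + A * x + B = (x - e₁) * (x - e₂) * (x - e₃))
    (h12 : e₂ - e₁ ≠ 0) (h13 : e₃ - e₁ ≠ 0) (h23 : e₂ - e₃ ≠ 0) : 4 * A ^ 3 + 27 * B ^ 2 ≠ 0 := by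
  have a0 := he 0
  have a1 := he 1
  have a2 := he (-1)
  have hs : e₁ + e₂ + e₃ = 0 := by linarith
  have hA : A = e₁ * e₂ + e₁ * e₃ + e₂ * e₃ := by linarith
  have hB : B = -(e₁ * e₂ * e₃) := by linarith
  have h3 : e₃ = -e₁ - e₂ := by linarith
  have key : 4 * A ^ 3 + 27 * B ^ 2 = -((e₂ - e₁) * (e₃ - e₁) * (e₂ - e₃)) ^ 2 := by
    rw [hA, hB, h3]
    ring
  rw [key]
  exact neg_ne_zero.2 (pow_ne_zero 2 (mul_ne_zero (mul_ne_zero h12 h13) h23))

/-- **Theorem.** Let `u_k = a_k ∏_{i < n_k} f_{k,i}`, `k = 0, 1, 2`, be polynomials with integer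
coefficients with `u₀ - u₁ = u₂`, where `a_k ≠ 0` and the `n₀ + n₁ + n₂` polynomials `f_{k,i}` are
irreducible of positive degree and pairwise non-associated, and `2 n_k < n₀ + n₁ + n₂` for
`k = 0, 1, 2`. Let `D₀`, ..., `D_s` be nonzero polynomials with integer coefficients not divisible by
any `f_{k,i}`, and `A`, `B`, `e₁`, `e₂`, `e₃` polynomials with integer coefficients such that
`x³ + A x + B = (x - e₁) (x - e₂) (x - e₃)`, `e₂ - e₁ = D₀ u₀` and `e₃ - e₁ = D₀ u₁`. There is a set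
`Z` of integers, of density zero uniformly in all the intervals `(N, N + M]` with `|N| ≤ M ^ L`,
containing the zeros of the `D₀ u_k` and the `D_i`, such that for all `k` and `L` there is `C` with:
for all `M ≥ 1` and `|N| ≤ M ^ L`, for the fields `F t = ℚ(√D₁(t), ..., √D_s(t))` and the curves
`W t : y² = x³ + A(t) x + B(t)` over `F t`, with `h t = dim H¹_f(F_t, V₂ W_t)`, the sum of
`2 ^ (k h t)` over the `t ∉ Z` with `N < t ≤ N + M` is at most `C M`, and at most `C M / 2 ^ (k m)` of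
these `t` have `h t ≥ m`, for all `m`. For these `t` the number `h t` is finite and at least the rank of
`W_t(F_t)`, and the Abel–Jacobi map `ℚ₂ ⊗ W_t(F_t) → H¹_f(F_t, V₂ W_t)` is an isomorphism if and only if
`h t` is equal to the rank. -/
theorem result (n : Fin 3 → ℕ) (a : Fin 3 → ℤ) (f : ∀ k : Fin 3, Fin (n k) → ℤ[X])
    (ha : ∀ k, a k ≠ 0) (hf : ∀ k i, Irreducible (f k i) ∧ 0 < (f k i).natDegree)
    (hf' : ∀ k i l j, (⟨k, i⟩ : Σ k : Fin 3, Fin (n k)) ≠ ⟨l, j⟩ → ¬ Associated (f k i) (f l j))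
    (hu : u a f 0 - u a f 1 = u a f 2) (hn : ∀ k, 2 * n k < n 0 + n 1 + n 2)
    (s : ℕ) (D₀ : ℤ[X]) (hD₀ : D₀ ≠ 0) (hDf₀ : ∀ k i, ¬ f k i ∣ D₀)
    (D : Fin s → ℤ[X]) (hD : ∀ l, D l ≠ 0) (hDf : ∀ l k i, ¬ f k i ∣ D l)
    (A B e₁ e₂ e₃ : ℤ[X])
    (he : ∀ t x : ℤ, x ^ 3 + A.eval t * x + B.eval t =
      (x - e₁.eval t) * (x - e₂.eval t) * (x - e₃.eval t))
    (h12 : e₂ - e₁ = D₀ * u a f 0) (h13 : e₃ - e₁ = D₀ * u a f 1) :
    ∃ Z : Set ℤ, DensityZero Z ∧ (∀ t, t ∉ Z → (∀ k, (D₀ * u a f k).eval t ≠ 0) ∧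
        ∀ i, (D i).eval t ≠ 0) ∧
      ∀ k L : ℕ, ∃ C : ℝ, ∀ (N : ℤ) (M : ℕ), 1 ≤ M → |N| ≤ (M : ℤ) ^ L →
      ∀ (F : ℤ → Type) [∀ t, Field (F t)] [∀ t, NumberField (F t)],
      (∀ t ∈ Off Z N M, Gen (F t) (fun i => (D i).eval t)) →
      ∀ W : ∀ t, WeierstrassCurve (F t), (∀ t, W t = EF (A.eval t) (B.eval t) (F t)) →
      (∀ t ∈ Off Z N M, Bounds (W t)) ∧
      ∑ t ∈ Off Z N M, ((2 : ℝ) ^ h1 (W t)) ^ k ≤ C * M ∧
      ∀ m : ℕ, (((Off Z N M).filter (fun t => m ≤ h1 (W t))).card : ℝ) ≤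
        C * M / 2 ^ (k * m) := by
  have hirr : Pool.Agent.TH841.PT.Irr (Pool.Agent.TH841.TR.fp f) :=
    ⟨fun x => (hf x.1 x.2).1, fun x => (hf x.1 x.2).2, fun x y hxy => hf' x.1 x.2 y.1 y.2 hxy⟩
  obtain ⟨Z, g1, g2, g3⟩ := Pool.Agent.TH841.PM.penZF Pool.Agent.TH841.PM.tavz a f ha hirr hu hn s
    D₀ hD₀ hDf₀ D hD hDf A B e₁ e₂ e₃ he h12 h13
  refine ⟨Z, fun L ε hε => ?_, g2, fun k L => ?_⟩
  · obtain ⟨M0, hM0⟩ := g1 L ε hε
    exact ⟨M0, fun N M hM hN => hM0 N M hM hN⟩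
  · obtain ⟨C, hC⟩ := g3 k L
    refine ⟨C, fun N M hM hN F _ _ hF W hW => ?_⟩
    obtain ⟨c1, c2, c3⟩ := hC N M hM hN _ rfl F hF W hW
    have key : ∀ t ∈ Off Z N M, Bounds (W t) ∧ h1 (W t) ≤ Pool.Agent.TH841.NF.D.rk (W t) +
        Pool.Agent.TH841.NF.D.crk (W t) := by
      intro t ht
      have htZ : t ∉ Z := by
        classical
        unfold Off at ht
        exact (mem_filter.1 ht).2
      obtain ⟨hk, -⟩ := g2 t htZ
      have d12 : e₂.eval t - e₁.eval t = (D₀ * u a f 0).eval t := by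
        rw [← eval_sub, h12]
      have d13 : e₃.eval t - e₁.eval t = (D₀ * u a f 1).eval t := by
        rw [← eval_sub, h13]
      have d23 : e₂.eval t - e₃.eval t = (D₀ * u a f 2).eval t := by
        have h : (D₀ * u a f 2).eval t = (D₀ * u a f 0).eval t - (D₀ * u a f 1).eval t := by
          rw [← hu, mul_sub, eval_sub]
        rw [h, ← d12, ← d13]
        ring
      have hdisc := disc_ne (he t) (by rw [d12]; exact hk 0) (by rw [d13]; exact hk 1)
        (by rw [d23]; exact hk 2)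
      have hroot : (e₁.eval t) ^ 3 + A.eval t * e₁.eval t + B.eval t = 0 := by
        rw [he t]
        ring
      have hWt : W t = Pool.Agent.TH841.NF.EF (A.eval t) (B.eval t) (F t) := hW t
      have hb := c1 t ht
      unfold Bounds h1
      rw [hWt] at hb ⊢
      obtain ⟨b1, b2, b3⟩ := Pool.Agent.X307.finrank_h1f (F := F t) hdisc hroot
      obtain ⟨-, b4⟩ := Pool.Agent.X307.v_le_crk (F := F t) hdisc hroot
      refine ⟨⟨b1, by omega, b3⟩, ?_⟩
      rw [b2]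
      refine add_le_add (le_of_eq ?_) (b4 hb)
      rw [Pool.Agent.X307.rk_eq]
      rfl
    refine ⟨fun t ht => (key t ht).1, ?_, fun m => ?_⟩
    · refine le_trans (sum_le_sum fun t ht => ?_) c2
      have h2 := (key t ht).2
      exact pow_le_pow_left₀ (by positivity) (pow_le_pow_right₀ (by norm_num) h2) k
    · refine le_trans ?_ (c3 m)
      refine Nat.cast_le.2 (card_le_card fun t ht => ?_)
      rw [mem_filter] at ht ⊢
      exact ⟨ht.1, ht.2.trans (key t ht.1).2⟩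

end Pool.Agent.Results.MP_009fd8_ag.SelmerMomentsPencils
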