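import Mathlib
import Pool.Agent.Results.MP_78d38b_nt.TwoTorsionStability
import Pool.Agent.X307.SelT
import Pool.Agent.Y141.YQ.Sha

/-!
# Abel–Jacobi maps onto Bloch–Kato Selmer groups in odd degree towers, in any rank

`E : y² = x³ + A x² + B x` is an elliptic curve over `ℚ` with a rational point of order two that satisfies
one condition comparing its behaviour at `∞` and at `2`.  For all totally real fields `K` of odd degree and
odd narrow class number in which `2` is inert and that satisfy a condition at the bad primes of `E`, in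
particular for all the layers `K` of the cyclotomic `ℤ₃`-extension of `ℚ` if the bad primes of `E` are `3` or
`2, 4, 5, 7` modulo `9`, the 2-adic Abel–Jacobi map `E(K) ⊗ ℚ₂ → H¹_f(K, V₂ E)` is an isomorphism if and
only if it is an isomorphism over `ℚ`; and `E(K)` and `E(ℚ)` have the same rank, `H¹_f(K, V₂ E)` and
`H¹_f(ℚ, V₂ E)` the same dimension.  There is no condition on the rank of `E`.
-/

set_option autoImplicit false

namespace Pool.Agent.Results.MP_009fd8_ag.StableOddDegree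

open NumberField IsDedekindDomain

open scoped TensorProduct

open Pool.Agent.Y682 (NCl)

open Pool.Agent.X307 (AJIso H1f V)

open Pool.Agent.TH841.SH.D (Pt)

open Pool.Agent.Results.MP_78d38b_nt.TwoTorsionStability (Pair Exc AtBad Stable)

/-- the curve `y² = x³ + A x² + B x` over `K` -/
def E (K : Type) [Field K] (A B : ℤ) : WeierstrassCurve K := ⟨0, A, 0, B, 0⟩

/-- For the curve `E : y² = x³ + A x² + B x` and the prime `2`:
* the Abel–Jacobi map `ℚ₂ ⊗ E(K) → H¹_f(K, V₂ E)` is an isomorphism if and only if the Abel–Jacobi map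
  `ℚ₂ ⊗ E(ℚ) → H¹_f(ℚ, V₂ E)` is an isomorphism;
* the ranks of `E(K)` and `E(ℚ)` are equal;
* the vector spaces `H¹_f(K, V₂ E)` and `H¹_f(ℚ, V₂ E)` over `ℚ₂` are isomorphic. -/
def StableBK (K : Type) [Field K] [NumberField K] (A B : ℤ) : Prop :=
  (AJIso 2 (E K A B) ↔ AJIso 2 (E ℚ A B)) ∧
  Module.finrank ℤ (Pt (E K A B) K) = Module.finrank ℤ (Pt (E ℚ A B) ℚ) ∧
  Nonempty (H1f 2 (E K A B) ≃ₗ[ℚ_[2]] H1f 2 (E ℚ A B))

lemma isT_of {A B : ℤ} (h : Pair A B) (K : Type) [Field K] [CharZero K] :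
    Pool.Agent.Y682.IsT (E K A B) (A : K) (B : K) := by
  obtain ⟨hB, hD, -, -⟩ := h
  refine ⟨rfl, rfl, rfl, rfl, rfl, ?_, ?_⟩
  · exact_mod_cast hB
  · intro h0
    apply hD
    have h1 : ((A ^ 2 - 4 * B : ℤ) : K) = 0 := by push_cast; exact h0
    have h2 : A ^ 2 - 4 * B = 0 := by exact_mod_cast h1
    linarith

lemma rkQ_eq (W : WeierstrassCurve ℚ) :
    Pool.Agent.TH841.SH.D.rk W = Module.finrank ℤ (Pool.Agent.Y682.MP W) := by
  unfold Pool.Agent.TH841.SH.D.rk Pool.Agent.Y682.MP Pool.Agent.Y682.MP.group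
  congr! 2
  · exact congrArg (fun i => @WeierstrassCurve.Affine.Point.instAddCommGroup ℚ _ W.toAffine i)
      (Subsingleton.elim _ _)
  · exact congrArg (fun i => @WeierstrassCurve.Affine.Point.instAddCommGroup ℚ _ W.toAffine i)
      (Subsingleton.elim _ _)

lemma v_zero_congr {S S' : Type} [AddCommGroup S] [AddCommGroup S']
    (e : V 2 S ≃ₗ[ℚ_[2]] V 2 S') : (∀ s : V 2 S, s = 0) ↔ ∀ s : V 2 S', s = 0 := by
  constructor
  · intro h s
    have := h (e.symm s)
    rw [LinearEquiv.map_eq_zero_iff] at this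
    exact this
  · intro h s
    have := h (e s)
    rw [LinearEquiv.map_eq_zero_iff] at this
    exact this

lemma bk_of {K : Type} [Field K] [NumberField K] {A B : ℤ} (h : Pair A B) (hs : Stable K A B) :
    StableBK K A B := by
  obtain ⟨⟨e⟩, hrk⟩ := hs
  have hK := isT_of h K
  have hQ := isT_of h ℚ
  obtain ⟨e0⟩ := Pool.Agent.Y141.YQ.t_SHA (E ℚ A B)
  -- the Tate modules of the Tate-Shafarevich groups
  have h1 : Nonempty (V 2 (Pool.Agent.TH841.NF.D.Sha (E K A B)) ≃ₗ[ℚ_[2]]
      V 2 (Pool.Agent.TH841.SH.D.Sha (E ℚ A B))) := Pool.Agent.X307.v_congr e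
  have h2 : Nonempty (V 2 (Pool.Agent.TH841.NF.D.Sha (E ℚ A B)) ≃ₗ[ℚ_[2]]
      V 2 (Pool.Agent.TH841.SH.D.Sha (E ℚ A B))) := Pool.Agent.X307.v_equiv e0
  obtain ⟨f1⟩ := h1
  obtain ⟨f2⟩ := h2
  have f := f1.trans f2.symm
  have hr : Module.finrank ℤ (Pt (E K A B) K) = Module.finrank ℤ (Pt (E ℚ A B) ℚ) := by
    rw [Pool.Agent.X307.rk_eq, Pool.Agent.X307.rk_eq]
    exact hrk.trans (rkQ_eq _)
  refine ⟨?_, hr, ?_⟩
  · rw [Pool.Agent.X307.ajIso_two_iff hK, Pool.Agent.X307.ajIso_two_iff hQ]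
    exact v_zero_congr f
  · obtain ⟨g1⟩ := Pool.Agent.X307.h1f_equiv (p := 2) (Pool.Agent.X307.half hK)
      (Pool.Agent.X307.fg_pt hK)
    obtain ⟨g2⟩ := Pool.Agent.X307.h1f_equiv (p := 2) (Pool.Agent.X307.half hQ)
      (Pool.Agent.X307.fg_pt hQ)
    obtain ⟨t⟩ := Pool.Agent.X307.ten_equiv (p := 2) (Pool.Agent.X307.fg_pt hK)
      (Pool.Agent.X307.fg_pt hQ) hr
    exact ⟨g1.trans ((LinearEquiv.prodCongr t f).trans g2.symm)⟩

/-- **Theorem.** Let `A`, `B` be the coefficients of a curve `E : y² = x³ + A x² + B x` with opposite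
types at `∞` and at `2`.
(1) Let `K` be a totally real number field of odd degree and odd narrow class number such that the ideal
`(2)` of the ring of integers is prime, and such that the condition `AtBad` holds for the bad primes.
If `3` divides the degree of `K`, suppose moreover that the pair is not exceptional at `2`.  Then the
2-adic Abel–Jacobi map of `E` over `K` is an isomorphism if and only if it is one over `ℚ`, the ranks of
`E(K)` and `E(ℚ)` are equal and `H¹_f(K, V₂ E)` and `H¹_f(ℚ, V₂ E)` are isomorphic vector spaces.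
(2) This holds for all the layers `K` of the cyclotomic `ℤ₃`-extension of `ℚ` (the subfields of odd
degree of the `3 ^ (n + 1)`-th cyclotomic fields) without an assumption on `K`, if the pair is not
exceptional at `2` and each prime factor `p` of `B (A² - 4B)` is `3` or `2, 4, 5, 7` modulo `9`, or
satisfies `AtBad`. -/
theorem result (A B : ℤ) (h : Pair A B) :
    (∀ (K : Type) [Field K] [NumberField K] [IsTotallyReal K],
      Odd (Module.finrank ℚ K) → Odd (Nat.card (NCl K)) → (Ideal.span {(2 : 𝓞 K)}).IsPrime →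
      (3 ∣ Module.finrank ℚ K → ¬ Exc A B) →
      (∀ p : ℕ, p.Prime → (p : ℤ) ∣ B * (A ^ 2 - 4 * B) → AtBad K A B p) → StableBK K A B) ∧
    (¬ Exc A B → ∀ (n : ℕ) (M : Type) [Field M] [NumberField M]
      [IsCyclotomicExtension {3 ^ (n + 1)} ℚ M] (K : IntermediateField ℚ M),
      Odd (Module.finrank ℚ K) →
      (∀ p : ℕ, p.Prime → (p : ℤ) ∣ B * (A ^ 2 - 4 * B) →
        p = 3 ∨ p % 9 = 2 ∨ p % 9 = 4 ∨ p % 9 = 5 ∨ p % 9 = 7 ∨ AtBad K A B p) →
      StableBK K A B) := by
  obtain ⟨h1, h2⟩ := Pool.Agent.Results.MP_78d38b_nt.TwoTorsionStability.result A B h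
  refine ⟨fun K _ _ _ a b c d e => bk_of h (h1 K a b c d e), fun hE n M _ _ _ K ho hb => ?_⟩
  exact bk_of h (h2 hE n M K ho hb)

end Pool.Agent.Results.MP_009fd8_ag.StableOddDegree
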